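import Mathlib

/-!
# The free Banach lattice over the Euclidean plane is not octahedral
-/

namespace Pool.Agent.Results.MP_8a6196_an.EuclideanPlane

/-! ### Definitions -/

section defs

variable (E : Type*) [NormedAddCommGroup E] [NormedSpace ℝ E]

/-- Real functions on the dual space `E*`. -/
abbrev Fn : Type _ := (E →L[ℝ] ℝ) → ℝ

variable {E}

/-- The finite family `φ` of functionals satisfies `sup_{x ∈ B_E} ∑ |φ_i(x)| ≤ 1`. -/
def Adm {m : ℕ} (φ : Fin m → (E →L[ℝ] ℝ)) : Prop := ∀ x : E, ‖x‖ ≤ 1 → ∑ i, |φ i x| ≤ 1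

/-- The sums `∑ |f(φ_i)|` over the families `φ` with `sup_{x ∈ B_E} ∑ |φ_i(x)| ≤ 1`. -/
def sums (f : Fn E) : Set ℝ := {r | ∃ (m : ℕ) (φ : Fin m → (E →L[ℝ] ℝ)), Adm φ ∧
  r = ∑ i, |f (φ i)|}

/-- The norm of `f` is finite. -/
def FiniteNorm (f : Fn E) : Prop := BddAbove (sums f)

/-- The norm of `f`, when finite: the supremum of the sums. -/
noncomputable def nrm (f : Fn E) : ℝ := sSup (sums f)

/-- `f` is positively homogeneous. -/
def PosHom (f : Fn E) : Prop := ∀ (t : ℝ) (φ : E →L[ℝ] ℝ), 0 ≤ t → f (t • φ) = t * f φ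

/-- The vector sublattice generated by the evaluations `δ_x`. -/
inductive InLattice : Fn E → Prop
  | delta (x : E) : InLattice (fun φ => φ x)
  | add {f g : Fn E} : InLattice f → InLattice g → InLattice (f + g)
  | smul (c : ℝ) {f : Fn E} : InLattice f → InLattice (c • f)
  | sup {f g : Fn E} : InLattice f → InLattice g → InLattice (f ⊔ g)

variable (E)

/-- `FBL[E]`: the norm closure of the vector sublattice generated by the `δ_x` in the Banach lattice
of the positively homogeneous functions of finite norm. -/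
def FBL : Set (Fn E) := {f | PosHom f ∧ FiniteNorm f ∧
  ∀ ε : ℝ, 0 < ε → ∃ g, InLattice g ∧ FiniteNorm (f - g) ∧ nrm (f - g) < ε}

/-- The norm of `FBL[E]` is octahedral. -/
def Octahedral : Prop := ∀ Y : Submodule ℝ (Fn E), (Y : Set (Fn E)) ⊆ FBL E →
  FiniteDimensional ℝ Y → ∀ ε : ℝ, 0 < ε → ∃ y ∈ FBL E, nrm y = 1 ∧
    ∀ z ∈ Y, ∀ c : ℝ, (1 - ε) * (nrm z + |c|) ≤ nrm (z + c • y)

end defs

/-! ### Generalities -/

section gen

variable {E : Type*} [NormedAddCommGroup E] [NormedSpace ℝ E]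

lemma sum_le_nrm {f : Fn E} (hf : FiniteNorm f) {m : ℕ} (φ : Fin m → (E →L[ℝ] ℝ)) (hφ : Adm φ) :
    ∑ i, |f (φ i)| ≤ nrm f := le_csSup hf ⟨m, φ, hφ, rfl⟩

lemma finiteNorm_iff (f : Fn E) : FiniteNorm f ↔
    ∃ C : ℝ, ∀ (m : ℕ) (φ : Fin m → (E →L[ℝ] ℝ)), Adm φ → ∑ i, |f (φ i)| ≤ C := by
  constructor
  · rintro ⟨C, hC⟩
    exact ⟨C, fun m φ hφ => hC ⟨m, φ, hφ, rfl⟩⟩
  · rintro ⟨C, hC⟩
    exact ⟨C, by rintro r ⟨m, φ, hφ, rfl⟩; exact hC m φ hφ⟩

lemma FiniteNorm.add {f g : Fn E} (hf : FiniteNorm f) (hg : FiniteNorm g) : FiniteNorm (f + g) := by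
  rw [finiteNorm_iff] at *
  obtain ⟨C, hC⟩ := hf
  obtain ⟨D, hD⟩ := hg
  refine ⟨C + D, fun m φ hφ => ?_⟩
  calc ∑ i, |(f + g) (φ i)| ≤ ∑ i, (|f (φ i)| + |g (φ i)|) :=
        Finset.sum_le_sum fun i _ => abs_add_le _ _
    _ = ∑ i, |f (φ i)| + ∑ i, |g (φ i)| := Finset.sum_add_distrib
    _ ≤ C + D := add_le_add (hC m φ hφ) (hD m φ hφ)

lemma FiniteNorm.smul (c : ℝ) {f : Fn E} (hf : FiniteNorm f) : FiniteNorm (c • f) := by
  rw [finiteNorm_iff] at *
  obtain ⟨C, hC⟩ := hf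
  refine ⟨|c| * C, fun m φ hφ => ?_⟩
  calc ∑ i, |(c • f) (φ i)| = |c| * ∑ i, |f (φ i)| := by
        rw [Finset.mul_sum]
        exact Finset.sum_congr rfl fun i _ => by simp [abs_mul]
    _ ≤ |c| * C := mul_le_mul_of_nonneg_left (hC m φ hφ) (abs_nonneg c)

lemma FiniteNorm.sup {f g : Fn E} (hf : FiniteNorm f) (hg : FiniteNorm g) : FiniteNorm (f ⊔ g) := by
  rw [finiteNorm_iff] at *
  obtain ⟨C, hC⟩ := hf
  obtain ⟨D, hD⟩ := hg
  refine ⟨C + D, fun m φ hφ => ?_⟩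
  calc ∑ i, |(f ⊔ g) (φ i)| ≤ ∑ i, (|f (φ i)| + |g (φ i)|) := by
        refine Finset.sum_le_sum fun i _ => ?_
        simp only [Pi.sup_apply]
        rcases le_total (f (φ i)) (g (φ i)) with h | h
        · rw [sup_eq_right.mpr h]; linarith [abs_nonneg (f (φ i))]
        · rw [sup_eq_left.mpr h]; linarith [abs_nonneg (g (φ i))]
    _ = ∑ i, |f (φ i)| + ∑ i, |g (φ i)| := Finset.sum_add_distrib
    _ ≤ C + D := add_le_add (hC m φ hφ) (hD m φ hφ)

lemma FiniteNorm.delta (x : E) : FiniteNorm (fun φ : E →L[ℝ] ℝ => φ x) := by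
  rw [finiteNorm_iff]
  refine ⟨‖x‖, fun m φ hφ => ?_⟩
  rcases eq_or_ne x 0 with rfl | hx
  · simp
  · have hx' : ‖x‖ ≠ 0 := norm_ne_zero_iff.mpr hx
    have h1 := hφ (‖x‖⁻¹ • x) (by rw [norm_smul, norm_inv, norm_norm, inv_mul_cancel₀ hx'])
    have h2 : ∑ i, |φ i (‖x‖⁻¹ • x)| = ‖x‖⁻¹ * ∑ i, |φ i x| := by
      rw [Finset.mul_sum]
      exact Finset.sum_congr rfl fun i _ => by
        rw [map_smul, smul_eq_mul, abs_mul, abs_of_nonneg (inv_nonneg.mpr (norm_nonneg x))]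
    rw [h2, inv_mul_le_iff₀ (lt_of_le_of_ne (norm_nonneg x) hx'.symm), mul_one] at h1
    exact h1

lemma InLattice.finite {f : Fn E} (hf : InLattice f) : FiniteNorm f := by
  induction hf with
  | delta x => exact FiniteNorm.delta x
  | add _ _ h1 h2 => exact h1.add h2
  | smul c _ h => exact h.smul c
  | sup _ _ h1 h2 => exact h1.sup h2

lemma InLattice.posHom {f : Fn E} (hf : InLattice f) : PosHom f := by
  induction hf with
  | delta x => intro t φ _; simp
  | add _ _ h1 h2 => intro t φ ht; simp only [Pi.add_apply, h1 t φ ht, h2 t φ ht]; ring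
  | smul c _ h => intro t φ ht; simp only [Pi.smul_apply, h t φ ht, smul_eq_mul]; ring
  | sup _ _ h1 h2 =>
    intro t φ ht
    simp only [Pi.sup_apply, h1 t φ ht, h2 t φ ht]
    exact (mul_max_of_nonneg _ _ ht).symm

lemma nrm_zero : nrm (0 : Fn E) = 0 := by
  have : sums (0 : Fn E) = {0} := by
    ext r
    constructor
    · rintro ⟨m, φ, -, rfl⟩
      simp
    · rintro rfl
      exact ⟨0, Fin.elim0, fun x _ => by simp, by simp⟩
  rw [nrm, this, csSup_singleton]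

lemma InLattice.mem_FBL {f : Fn E} (hf : InLattice f) : f ∈ FBL E := by
  refine ⟨hf.posHom, hf.finite, fun ε hε => ⟨f, hf, ?_, ?_⟩⟩
  · rw [sub_self, finiteNorm_iff]
    exact ⟨0, fun m φ _ => by simp⟩
  · rw [sub_self, nrm_zero]; exact hε

lemma InLattice.abs {f : Fn E} (hf : InLattice f) : InLattice (|f|) := by
  have h : |f| = f ⊔ ((-1 : ℝ) • f) := by
    rw [neg_one_smul]; rfl
  rw [h]
  exact hf.sup (hf.smul _)

end gen

/-! ### The Euclidean plane -/

section plane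

abbrev P : Type := EuclideanSpace ℝ (Fin 2)

noncomputable def e (i : Fin 2) : P := EuclideanSpace.single i 1

lemma apply_eq (φ : P →L[ℝ] ℝ) (x : P) (i j : Fin 2) (hij : i ≠ j) :
    φ x = x i * φ (e i) + x j * φ (e j) := by
  have h : x = x i • e i + x j • e j := by
    ext k
    have : k = i ∨ k = j := by omega
    rcases this with rfl | rfl
    · simp [e, hij]
    · simp [e, hij.symm]
  conv_lhs => rw [h]
  rw [map_add, map_smul, map_smul, smul_eq_mul, smul_eq_mul]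

lemma norm_le_one (x : P) (i j : Fin 2) (hij : i ≠ j) (h : x i ^ 2 + x j ^ 2 ≤ 1) : ‖x‖ ≤ 1 := by
  rw [EuclideanSpace.norm_eq, Fin.sum_univ_two, Real.sqrt_le_one]
  simp only [Real.norm_eq_abs, sq_abs]
  have : (i = 0 ∧ j = 1) ∨ (i = 1 ∧ j = 0) := by omega
  rcases this with ⟨rfl, rfl⟩ | ⟨rfl, rfl⟩
  · exact h
  · rw [add_comm]; exact h

lemma sq_add_sq_le (x : P) (i j : Fin 2) (hij : i ≠ j) (h : ‖x‖ ≤ 1) : x i ^ 2 + x j ^ 2 ≤ 1 := by
  rw [EuclideanSpace.norm_eq, Fin.sum_univ_two, Real.sqrt_le_one] at h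
  simp only [Real.norm_eq_abs, sq_abs] at h
  have : (i = 0 ∧ j = 1) ∨ (i = 1 ∧ j = 0) := by omega
  rcases this with ⟨rfl, rfl⟩ | ⟨rfl, rfl⟩
  · exact h
  · rw [add_comm]; exact h

lemma abs_le_one (x : P) (i j : Fin 2) (hij : i ≠ j) (h : ‖x‖ ≤ 1) : |x i| ≤ 1 := by
  have := sq_add_sq_le x i j hij h
  rw [← sq_le_one_iff_abs_le_one]
  nlinarith [sq_nonneg (x j)]

lemma posHom_zero {f : Fn P} (hf : PosHom f) : f 0 = 0 := by
  have := hf 0 0 le_rfl
  simpa using this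

lemma abs_le_sum {y : Fn P} (hy : PosHom y) (hyf : FiniteNorm y) (hyn : nrm y = 1)
    (φ : P →L[ℝ] ℝ) (i j : Fin 2) (hij : i ≠ j) : |y φ| ≤ |φ (e i)| + |φ (e j)| := by
  set s := |φ (e i)| + |φ (e j)| with hs
  have hs0 : 0 ≤ s := add_nonneg (abs_nonneg _) (abs_nonneg _)
  have hφ : ∀ x : P, ‖x‖ ≤ 1 → |φ x| ≤ s := by
    intro x hx
    rw [apply_eq φ x i j hij]
    have h1 := abs_le_one x i j hij hx
    have h2 := abs_le_one x j i hij.symm hx
    calc |x i * φ (e i) + x j * φ (e j)| ≤ |x i * φ (e i)| + |x j * φ (e j)| := abs_add_le _ _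
      _ = |x i| * |φ (e i)| + |x j| * |φ (e j)| := by rw [abs_mul, abs_mul]
      _ ≤ s := by nlinarith [abs_nonneg (φ (e i)), abs_nonneg (φ (e j))]
  rcases eq_or_lt_of_le hs0 with h0 | h0
  · have hz : φ = 0 := by
      ext x
      have h1 : |φ (e i)| = 0 := by linarith [abs_nonneg (φ (e i)), abs_nonneg (φ (e j))]
      have h2 : |φ (e j)| = 0 := by linarith [abs_nonneg (φ (e i)), abs_nonneg (φ (e j))]
      rw [apply_eq φ x i j hij, abs_eq_zero.mp h1, abs_eq_zero.mp h2]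
      simp
    rw [hz, posHom_zero hy, abs_zero]
    exact hs0
  · have h1 : Adm (fun _ : Fin 1 => s⁻¹ • φ) := by
      intro x hx
      simp only [Fin.sum_univ_one, _root_.smul_apply, smul_eq_mul, abs_mul,
        abs_of_pos (inv_pos.mpr h0)]
      rw [inv_mul_le_iff₀ h0, mul_one]
      exact hφ x hx
    have h2 := sum_le_nrm hyf _ h1
    rw [hyn, Fin.sum_univ_one] at h2
    have h3 : y φ = s * y (s⁻¹ • φ) := by
      rw [← hy s _ hs0, smul_smul, mul_inv_cancel₀ h0.ne', one_smul]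
    rw [h3, abs_mul, abs_of_pos h0]
    nlinarith

/-- The bump around the direction `e i`. -/
noncomputable def bump (i j : Fin 2) : Fn P :=
  (|(fun φ : P →L[ℝ] ℝ => φ (e i))| + (-10 : ℝ) • |(fun φ : P →L[ℝ] ℝ => φ (e j))|) ⊔
    ((0 : ℝ) • (fun φ : P →L[ℝ] ℝ => φ (e i)))

lemma bump_lattice (i j : Fin 2) : InLattice (bump i j) :=
  ((InLattice.delta (e i)).abs.add ((InLattice.delta (e j)).abs.smul _)).sup
    ((InLattice.delta (e i)).smul 0)

lemma bump_apply (i j : Fin 2) (φ : P →L[ℝ] ℝ) :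
    bump i j φ = max (|φ (e i)| - 10 * |φ (e j)|) 0 := by
  simp only [bump, Pi.sup_apply, Pi.add_apply, Pi.smul_apply, Pi.abs_apply, smul_eq_mul, zero_mul]
  rw [show |φ (e i)| + -10 * |φ (e j)| = |φ (e i)| - 10 * |φ (e j)| by ring]

lemma one_le_bump (i j : Fin 2) (hij : i ≠ j) : 1 ≤ nrm (bump i j) := by
  have h1 : Adm (fun _ : Fin 1 => (EuclideanSpace.proj i : P →L[ℝ] ℝ)) := by
    intro x hx
    simp only [Fin.sum_univ_one]
    exact abs_le_one x i j hij hx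
  have h2 := sum_le_nrm (bump_lattice i j).finite _ h1
  rw [Fin.sum_univ_one, bump_apply] at h2
  have h3 : (EuclideanSpace.proj i : P →L[ℝ] ℝ) (e i) = 1 := by simp [e]
  have h4 : (EuclideanSpace.proj i : P →L[ℝ] ℝ) (e j) = 0 := by simp [e, hij]
  rw [h3, h4] at h2
  simpa using h2

lemma key {y : Fn P} (hy : PosHom y) (hyf : FiniteNorm y) (hyn : nrm y = 1) (i j : Fin 2)
    (hij : i ≠ j) (h : (1 - 1 / 12100) * (nrm (bump i j) + 1) ≤ nrm (bump i j + y)) :
    ∃ ψ : P →L[ℝ] ℝ, 0 < |ψ (e i)| ∧ 10 * |ψ (e j)| ≤ |ψ (e i)| ∧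
      (9 / 10) * |ψ (e i)| < |y ψ| := by
  by_contra hcon
  push Not at hcon
  have hz1 := one_le_bump i j hij
  have hlt : 2 - 3 / 12100 < nrm (bump i j + y) := by nlinarith
  have hne : (sums (bump i j + y)).Nonempty :=
    ⟨_, 0, Fin.elim0, fun x _ => by simp, rfl⟩
  obtain ⟨r, ⟨m, φ, hφ, rfl⟩, hr⟩ := exists_lt_of_lt_csSup hne hlt
  have hSy := sum_le_nrm hyf φ hφ
  rw [hyn] at hSy
  -- the sums
  have hei : ‖e i‖ ≤ 1 := by simp [e]
  have hSa := hφ (e i) hei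
  have hp := hφ ((1 - 1 / 12100 : ℝ) • e i + (1 / 110 : ℝ) • e j) (by
    apply norm_le_one _ i j hij
    simp [e, hij, hij.symm]
    norm_num)
  have hm := hφ ((1 - 1 / 12100 : ℝ) • e i - (1 / 110 : ℝ) • e j) (by
    apply norm_le_one _ i j hij
    simp [e, hij, hij.symm]
    norm_num)
  have hpt : ∀ k, (1 / 110 : ℝ) * |y (φ k)| ≤ (1 / 110) * |φ k (e i)| +
      (|φ k ((1 - 1 / 12100 : ℝ) • e i + (1 / 110 : ℝ) • e j)| +
        |φ k ((1 - 1 / 12100 : ℝ) • e i - (1 / 110 : ℝ) • e j)|) / 2 -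
      (1 + 10 / 12100) * bump i j (φ k) := by
    intro k
    rw [map_add, map_sub, map_smul, map_smul, smul_eq_mul, smul_eq_mul, bump_apply]
    have hM1 : (1 - 1 / 12100) * |φ k (e i)| ≤
        (|(1 - 1 / 12100) * φ k (e i) + 1 / 110 * φ k (e j)| +
        |(1 - 1 / 12100) * φ k (e i) - 1 / 110 * φ k (e j)|) / 2 := by
      have h1 := abs_add_le ((1 - 1 / 12100) * φ k (e i) + 1 / 110 * φ k (e j))
        ((1 - 1 / 12100) * φ k (e i) - 1 / 110 * φ k (e j))
      have h2 : (1 - 1 / 12100) * φ k (e i) + 1 / 110 * φ k (e j) +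
        ((1 - 1 / 12100) * φ k (e i) - 1 / 110 * φ k (e j)) =
        (2 * (1 - 1 / 12100)) * φ k (e i) := by ring
      rw [h2, abs_mul, abs_of_pos (show (0 : ℝ) < 2 * (1 - 1 / 12100) by norm_num)] at h1
      linarith
    have hM2 : 1 / 110 * |φ k (e j)| ≤
        (|(1 - 1 / 12100) * φ k (e i) + 1 / 110 * φ k (e j)| +
        |(1 - 1 / 12100) * φ k (e i) - 1 / 110 * φ k (e j)|) / 2 := by
      have h1 := abs_sub ((1 - 1 / 12100) * φ k (e i) + 1 / 110 * φ k (e j))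
        ((1 - 1 / 12100) * φ k (e i) - 1 / 110 * φ k (e j))
      have h2 : (1 - 1 / 12100) * φ k (e i) + 1 / 110 * φ k (e j) -
        ((1 - 1 / 12100) * φ k (e i) - 1 / 110 * φ k (e j)) =
        (2 * (1 / 110)) * φ k (e j) := by ring
      rw [h2, abs_mul, abs_of_pos (show (0 : ℝ) < 2 * (1 / 110) by norm_num)] at h1
      linarith
    have hsum := abs_le_sum hy hyf hyn (φ k) i j hij
    have ha := abs_nonneg (φ k (e i))
    have hb := abs_nonneg (φ k (e j))
    by_cases hC : 10 * |φ k (e j)| ≤ |φ k (e i)|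
    · rw [max_eq_left (by linarith)]
      have hyk : |y (φ k)| ≤ 9 / 10 * |φ k (e i)| := by
        rcases eq_or_lt_of_le ha with h0 | h0
        · have hb0 : |φ k (e j)| = 0 := by linarith
          rw [← h0, hb0] at hsum
          linarith
        · exact hcon (φ k) h0 hC
      linarith
    · push Not at hC
      rw [max_eq_right (by linarith)]
      linarith
  have hsumpt := Finset.sum_le_sum fun k (_ : k ∈ Finset.univ) => hpt k
  rw [← Finset.mul_sum, Finset.sum_sub_distrib, Finset.sum_add_distrib, ← Finset.mul_sum,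
    ← Finset.sum_div, Finset.sum_add_distrib, ← Finset.mul_sum] at hsumpt
  have hr2 : ∑ k, |(bump i j + y) (φ k)| ≤ ∑ k, bump i j (φ k) + ∑ k, |y (φ k)| := by
    rw [← Finset.sum_add_distrib]
    refine Finset.sum_le_sum fun k _ => ?_
    refine (abs_add_le _ _).trans ?_
    rw [abs_of_nonneg (by rw [bump_apply]; exact le_max_right _ _)]
  have hSz : ∑ k, bump i j (φ k) ≤ ∑ k, |φ k (e i)| := by
    refine Finset.sum_le_sum fun k _ => ?_
    rw [bump_apply]
    exact max_le (by linarith [abs_nonneg (φ k (e j))]) (abs_nonneg _)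
  linarith

end plane

/-- The norm of the free Banach lattice `FBL[E]` over the Euclidean plane `E` is not octahedral. -/
theorem result : ¬ Octahedral (EuclideanSpace ℝ (Fin 2)) := by
  intro hoct
  set Y : Submodule ℝ (Fn P) := Submodule.span ℝ {bump 0 1, bump 1 0} with hY
  have hYlat : ∀ z ∈ Y, InLattice z := by
    intro z hz
    obtain ⟨a, b, rfl⟩ := Submodule.mem_span_pair.mp hz
    exact ((bump_lattice 0 1).smul a).add ((bump_lattice 1 0).smul b)
  obtain ⟨y, hyF, hyn, hy⟩ := hoct Y (fun z hz => (hYlat z hz).mem_FBL)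
    (FiniteDimensional.span_of_finite ℝ (by simp)) (1 / 12100) (by norm_num)
  have h01 := hy (bump 0 1) (Submodule.subset_span (by simp)) 1
  have h10 := hy (bump 1 0) (Submodule.subset_span (by simp)) 1
  rw [one_smul, abs_one] at h01 h10
  obtain ⟨ψ, h1, h2, h3⟩ := key hyF.1 hyF.2.1 hyn 0 1 (by decide) h01
  obtain ⟨χ, h4, h5, h6⟩ := key hyF.1 hyF.2.1 hyn 1 0 (by decide) h10
  set a := |ψ (e 0)| with ha
  set b := |χ (e 1)| with hb
  set s : ℝ := 20 / 33 with hs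
  have hadm : Adm (![(s / a) • ψ, (s / b) • χ] : Fin 2 → (P →L[ℝ] ℝ)) := by
    intro x hx
    rw [Fin.sum_univ_two]
    simp only [Matrix.cons_val_zero, Matrix.cons_val_one, _root_.smul_apply, smul_eq_mul, abs_mul,
      abs_of_pos (div_pos (show (0 : ℝ) < s by norm_num) h1),
      abs_of_pos (div_pos (show (0 : ℝ) < s by norm_num) h4)]
    have hsq := sq_add_sq_le x 0 1 (by decide) hx
    have hx1 : |x 0| + |x 1| ≤ 3 / 2 := by
      nlinarith [sq_abs (x 0), sq_abs (x 1), sq_nonneg (|x 0| - |x 1|), abs_nonneg (x 0),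
        abs_nonneg (x 1)]
    have e1 : |ψ x| ≤ a * (|x 0| + |x 1| / 10) := by
      rw [apply_eq ψ x 0 1 (by decide)]
      calc |x 0 * ψ (e 0) + x 1 * ψ (e 1)| ≤ |x 0 * ψ (e 0)| + |x 1 * ψ (e 1)| := abs_add_le _ _
        _ = |x 0| * a + |x 1| * |ψ (e 1)| := by rw [abs_mul, abs_mul]
        _ ≤ a * (|x 0| + |x 1| / 10) := by nlinarith [abs_nonneg (x 0), abs_nonneg (x 1)]
    have e2 : |χ x| ≤ b * (|x 1| + |x 0| / 10) := by
      rw [apply_eq χ x 1 0 (by decide)]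
      calc |x 1 * χ (e 1) + x 0 * χ (e 0)| ≤ |x 1 * χ (e 1)| + |x 0 * χ (e 0)| := abs_add_le _ _
        _ = |x 1| * b + |x 0| * |χ (e 0)| := by rw [abs_mul, abs_mul]
        _ ≤ b * (|x 1| + |x 0| / 10) := by nlinarith [abs_nonneg (x 0), abs_nonneg (x 1)]
    have e3 : s / a * |ψ x| ≤ s * (|x 0| + |x 1| / 10) := by
      rw [div_mul_eq_mul_div, div_le_iff₀ h1]
      calc s * |ψ x| ≤ s * (a * (|x 0| + |x 1| / 10)) :=
            mul_le_mul_of_nonneg_left e1 (by norm_num)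
        _ = s * (|x 0| + |x 1| / 10) * a := by ring
    have e4 : s / b * |χ x| ≤ s * (|x 1| + |x 0| / 10) := by
      rw [div_mul_eq_mul_div, div_le_iff₀ h4]
      calc s * |χ x| ≤ s * (b * (|x 1| + |x 0| / 10)) :=
            mul_le_mul_of_nonneg_left e2 (by norm_num)
        _ = s * (|x 1| + |x 0| / 10) * b := by ring
    rw [hs] at e3 e4 ⊢
    linarith
  have hfin := sum_le_nrm hyF.2.1 _ hadm
  rw [hyn, Fin.sum_univ_two] at hfin
  simp only [Matrix.cons_val_zero, Matrix.cons_val_one] at hfin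
  have hs0 : (0 : ℝ) < s := by norm_num
  rw [hyF.1 _ ψ (div_pos hs0 h1).le, hyF.1 _ χ (div_pos hs0 h4).le, abs_mul, abs_mul,
    abs_of_pos (div_pos hs0 h1), abs_of_pos (div_pos hs0 h4)] at hfin
  have e5 : s * (9 / 10) < s / a * |y ψ| := by
    rw [show s / a * |y ψ| = s * |y ψ| / a by ring, lt_div_iff₀ h1]
    nlinarith
  have e6 : s * (9 / 10) < s / b * |y χ| := by
    rw [show s / b * |y χ| = s * |y χ| / b by ring, lt_div_iff₀ h4]
    nlinarith
  rw [hs] at e5 e6 hfin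
  linarith

end Pool.Agent.Results.MP_8a6196_an.EuclideanPlane
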